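import Pool.Agent.Lib.MP_918176_nt.Defs
import Pool.Agent.Lib.MP_918176_nt.EvenCase

set_option autoImplicit false

namespace Pool.Agent.Results.MP_918176_nt.EvenExact

open Pool.Agent.Lib.MP_918176_nt

/-- Question Q1, in full: for all `k ≥ 1` and `n ≥ 1`,
`ν₂(c_{2k}(4n) - c_{2k}(n)) = ν₂(n) + 2 ν₂(k) + 3`.
Here `emultiplicity 2 a : ℕ∞` is the 2-adic valuation, with value `⊤` at `a = 0`. -/
theorem result :
    ∀ k n : ℕ, 1 ≤ k → 1 ≤ n →
      emultiplicity (2 : ℤ) (c (2 * k) (4 * n) - c (2 * k) n)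
        = emultiplicity 2 n + 2 * emultiplicity 2 k + 3 :=
  fun k n hk hn => even_main k n hk hn

end Pool.Agent.Results.MP_918176_nt.EvenExact
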