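import Pool.Agent.Lib.MP_918176_nt.Defs
import Pool.Agent.Lib.MP_918176_nt.OddFinal

set_option autoImplicit false

namespace Pool.Agent.Results.MP_918176_nt.OddDecision

open Pool.Agent.Lib.MP_918176_nt

/-- Question Q2 decided. The two inequalities hold for all `k ≥ 0`, `n ≥ 1`; equality in the first
holds exactly for odd `n`, and equality in the second holds exactly in the cases listed; hence
equality in the first holds for infinitely many `n` for every `k`, but equality in the second holds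
for infinitely many `n` if and only if `k` is not congruent to `3` mod `4` (so Q2 fails, first for
`k = 3`, i.e. for `c_15`).
Here `emultiplicity 2 a : ℕ∞` is the 2-adic valuation, with value `⊤` at `a = 0`. -/
theorem result :
    (∀ k n : ℕ, 1 ≤ n →
      emultiplicity 2 n + 3 ≤ emultiplicity (2 : ℤ) (c (4 * k + 1) (4 * n) - c (4 * k + 1) n) ∧
      (emultiplicity (2 : ℤ) (c (4 * k + 1) (4 * n) - c (4 * k + 1) n) = emultiplicity 2 n + 3 ↔
        Odd n)) ∧
    (∀ k n : ℕ, 1 ≤ n →
      emultiplicity 2 n + 6 ≤ emultiplicity (2 : ℤ) (c (4 * k + 3) (4 * n) - c (4 * k + 3) n) ∧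
      (emultiplicity (2 : ℤ) (c (4 * k + 3) (4 * n) - c (4 * k + 3) n) = emultiplicity 2 n + 6 ↔
        ((k % 4 = 0 ∨ k % 4 = 1) ∧ Odd n) ∨
          (k % 2 = 0 ∧ (emultiplicity 2 n = 1 ∨ emultiplicity 2 n = 2)))) ∧
    (∀ k : ℕ, {n : ℕ | 1 ≤ n ∧
      emultiplicity (2 : ℤ) (c (4 * k + 1) (4 * n) - c (4 * k + 1) n)
        = emultiplicity 2 n + 3}.Infinite) ∧
    (∀ k : ℕ, {n : ℕ | 1 ≤ n ∧
      emultiplicity (2 : ℤ) (c (4 * k + 3) (4 * n) - c (4 * k + 3) n)
        = emultiplicity 2 n + 6}.Infinite ↔ k % 4 ≠ 3) :=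
  odd_decision

end Pool.Agent.Results.MP_918176_nt.OddDecision
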